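import Pool.Agent.H14.CTT.SG2

/-! Board ctt, row SG1 (helper14): the transvections generate `Sp_4(F)`. -/

set_option autoImplicit false

namespace Pool.CND

open Finset Polynomial Matrix

variable {F : Type} [Field F]

theorem sg1h_move (u w : Fin 4 → F) (h : frm u w ≠ 0) :
    (sg2_T (w - u) (frm u w)⁻¹).1 *ᵥ u = w ∧
    ∀ x, frm x w = frm x u → (sg2_T (w - u) (frm u w)⁻¹).1 *ᵥ x = x := by
  have e : ∀ x, frm x (w - u) = frm x w - frm x u := by
    intro x
    rw [sub_eq_add_neg, sg2_add_right, ← neg_one_smul F u, sg2_smul_right]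
    ring
  constructor
  · rw [sg2_T_apply, e, sg2_self, sub_zero, inv_mul_cancel₀ h, one_smul]
    abel
  · intro x hx
    rw [sg2_T_apply, e, hx, sub_self, mul_zero, zero_smul, add_zero]

theorem sg1h_ne (u : Fin 4 → F) (hu : u ≠ 0) : ∃ y, frm u y ≠ 0 := by
  by_contra hcon
  push Not at hcon
  apply hu
  have a0 := hcon (Pi.single 3 1)
  have a1 := hcon (Pi.single 2 1)
  have a2 := hcon (Pi.single 1 1)
  have a3 := hcon (Pi.single 0 1)
  rw [sg2_frm] at a0 a1 a2 a3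
  simp at a0 a1 a2 a3
  ext i
  fin_cases i
  · simpa using a0
  · simpa using a1
  · simpa using a2
  · simpa using a3

theorem sg1h_two (u w : Fin 4 → F) (hu : u ≠ 0) (hw : w ≠ 0) :
    ∃ z, frm u z ≠ 0 ∧ frm z w ≠ 0 := by
  obtain ⟨a, ha⟩ := sg1h_ne u hu
  obtain ⟨b, hb⟩ := sg1h_ne w hw
  have hb2 : frm b w ≠ 0 := by
    rw [sg2_swap]
    exact neg_ne_zero.2 hb
  by_cases h1 : frm a w ≠ 0
  · exact ⟨a, ha, h1⟩
  by_cases h2 : frm u b ≠ 0
  · exact ⟨b, h2, hb2⟩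
  push Not at h1 h2
  refine ⟨a + b, ?_, ?_⟩
  · rw [sg2_add_right, h2, add_zero]
    exact ha
  · rw [sg2_add_left, h1, zero_add]
    exact hb2

theorem sg1_thm : S_SG1 := by
  intro F _ G₀ hG hT
  have hTm : ∀ v c, sg2_T v c ∈ G₀ := fun v c => hT _ v c (sg2_T_apply v c)
  refine le_antisymm hG ?_
  intro g hg
  -- it is enough to find `h ∈ G₀` with `h g ∈ G₀`
  have hred : ∀ h ∈ G₀, ∀ g : Matrix.SpecialLinearGroup (Fin 4) F, h * g ∈ G₀ → g ∈ G₀ := by
    intro h hh g hg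
    have : g = h⁻¹ * (h * g) := by group
    rw [this]
    exact G₀.mul_mem (G₀.inv_mem hh) hg
  -- transitivity
  have htr : ∀ u w : Fin 4 → F, u ≠ 0 → w ≠ 0 → ∃ h ∈ G₀, h.1 *ᵥ u = w := by
    intro u w hu hw
    obtain ⟨z, hz1, hz2⟩ := sg1h_two u w hu hw
    refine ⟨sg2_T (w - z) (frm z w)⁻¹ * sg2_T (z - u) (frm u z)⁻¹,
      G₀.mul_mem (hTm _ _) (hTm _ _), ?_⟩
    rw [sg2_mul, (sg1h_move u z hz1).1, (sg1h_move z w hz2).1]
  have hne : ∀ i : Fin 4, (Pi.single i 1 : Fin 4 → F) ≠ 0 := by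
    intro i h
    have := congrFun h i
    simp at this
  have hgne : ∀ g ∈ Sp4 F, ∀ u : Fin 4 → F, u ≠ 0 → g.1 *ᵥ u ≠ 0 := by
    intro g _ u hu h
    apply hu
    rw [← sg2_inv g u, h, Matrix.mulVec_zero]
  -- step 3: `g` fixes `e_0`, `e_3`, `e_1`
  have s3 : ∀ g ∈ Sp4 F, g.1 *ᵥ Pi.single 0 1 = Pi.single 0 1 →
      g.1 *ᵥ Pi.single 3 1 = Pi.single 3 1 → g.1 *ᵥ Pi.single 1 1 = Pi.single 1 1 → g ∈ G₀ := by
    intro g hg h0 h3 h1
    have hB := (sg2_mem_iff g).1 hg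
    have b0 := hB (Pi.single 2 1) (Pi.single 0 1)
    have b3 := hB (Pi.single 2 1) (Pi.single 3 1)
    have b1 := hB (Pi.single 1 1) (Pi.single 2 1)
    rw [h0, sg2_frm, sg2_frm] at b0
    rw [h3, sg2_frm, sg2_frm] at b3
    rw [h1, sg2_frm, sg2_frm] at b1
    simp at b0 b3 b1
    have c0 := congrFun h0
    have c1 := congrFun h1
    have c3 := congrFun h3
    have hgT : g = sg2_T (Pi.single 1 1) (-(g.1 1 2)) := by
      apply Subtype.ext
      have hcol : ∀ j, g.1 *ᵥ Pi.single j 1 =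
          (sg2_T (Pi.single 1 1) (-(g.1 1 2))).1 *ᵥ Pi.single j 1 := by
        intro j
        rw [sg2_T_apply]
        fin_cases j
        · refine h0.trans ?_
          rw [sg2_frm]
          simp
        · refine h1.trans ?_
          rw [sg2_frm]
          simp
        · ext i
          fin_cases i
          · simpa [sg2_frm] using b3
          · simp [sg2_frm]
          · simpa [sg2_frm] using b1
          · simpa [sg2_frm] using b0
        · refine h3.trans ?_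
          rw [sg2_frm]
          simp
      ext i j
      have := congrFun (hcol j) i
      simpa using this
    rw [hgT]
    exact hTm _ _
  -- step 2: `g` fixes `e_0`, `e_3`
  have s2 : ∀ g ∈ Sp4 F, g.1 *ᵥ Pi.single 0 1 = Pi.single 0 1 →
      g.1 *ᵥ Pi.single 3 1 = Pi.single 3 1 → g ∈ G₀ := by
    intro g hg h0 h3
    have hB := (sg2_mem_iff g).1 hg
    have b0 := hB (Pi.single 1 1) (Pi.single 0 1)
    have b3 := hB (Pi.single 1 1) (Pi.single 3 1)
    rw [h0, sg2_frm, sg2_frm] at b0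
    rw [h3, sg2_frm, sg2_frm] at b3
    have hu : g.1 *ᵥ Pi.single 1 1 ≠ 0 := hgne g hg _ (hne 1)
    set u := g.1 *ᵥ (Pi.single 1 1 : Fin 4 → F) with hudef
    simp at b0 b3
    -- move `u` to `e_1`
    by_cases h1 : frm u (Pi.single 1 1) ≠ 0
    · obtain ⟨m1, m2⟩ := sg1h_move u (Pi.single 1 1) h1
      refine hred _ (hTm (Pi.single 1 1 - u) (frm u (Pi.single 1 1))⁻¹) g
        (s3 _ ((Sp4 F).mul_mem (sg2_T_mem _ _) hg) ?_ ?_ ?_)
      · rw [sg2_mul, h0, m2]
        rw [sg2_frm, sg2_frm]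
        simp [b0]
      · rw [sg2_mul, h3, m2]
        rw [sg2_frm, sg2_frm]
        simp [b3]
      · rw [sg2_mul, ← hudef, m1]
    · push Not at h1
      have h2 : frm u (Pi.single 2 1) ≠ 0 := by
        intro h2
        apply hu
        rw [sg2_frm] at h1 h2
        simp at h1 h2
        ext i
        fin_cases i
        · simpa using b3
        · simpa using h2
        · simpa using h1
        · simpa using b0
      obtain ⟨m1, m2⟩ := sg1h_move u (Pi.single 2 1) h2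
      have h4 : frm (Pi.single 2 1 : Fin 4 → F) (Pi.single 1 1) ≠ 0 := by
        rw [sg2_frm]
        simp
      obtain ⟨n1, n2⟩ := sg1h_move (Pi.single 2 1 : Fin 4 → F) (Pi.single 1 1) h4
      refine hred _ (G₀.mul_mem (hTm (Pi.single 1 1 - Pi.single 2 1)
        (frm (Pi.single 2 1) (Pi.single 1 1))⁻¹) (hTm (Pi.single 2 1 - u)
        (frm u (Pi.single 2 1))⁻¹)) g (s3 _ ((Sp4 F).mul_mem ((Sp4 F).mul_mem (sg2_T_mem _ _)
          (sg2_T_mem _ _)) hg) ?_ ?_ ?_)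
      · rw [sg2_mul, sg2_mul, h0, m2, n2]
        · rw [sg2_frm, sg2_frm]
          simp
        · rw [sg2_frm, sg2_frm]
          simp [b0]
      · rw [sg2_mul, sg2_mul, h3, m2, n2]
        · rw [sg2_frm, sg2_frm]
          simp
        · rw [sg2_frm, sg2_frm]
          simp [b3]
      · rw [sg2_mul, sg2_mul, ← hudef, m1, n1]
  -- step 1: `g` fixes `e_3`
  have s1 : ∀ g ∈ Sp4 F, g.1 *ᵥ Pi.single 3 1 = Pi.single 3 1 → g ∈ G₀ := by
    -- first the case `B(g e_0, e_0) ≠ 0`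
    have s1a : ∀ g ∈ Sp4 F, g.1 *ᵥ Pi.single 3 1 = Pi.single 3 1 →
        frm (g.1 *ᵥ Pi.single 0 1) (Pi.single 0 1) ≠ 0 → g ∈ G₀ := by
      intro g hg h3 h
      have hB := (sg2_mem_iff g).1 hg (Pi.single 3 1) (Pi.single 0 1)
      rw [h3] at hB
      obtain ⟨m1, m2⟩ := sg1h_move _ _ h
      refine hred _ (hTm (Pi.single 0 1 - g.1 *ᵥ Pi.single 0 1)
        (frm (g.1 *ᵥ Pi.single 0 1) (Pi.single 0 1))⁻¹) g
        (s2 _ ((Sp4 F).mul_mem (sg2_T_mem _ _) hg) ?_ ?_)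
      · rw [sg2_mul]
        exact m1
      · rw [sg2_mul, h3]
        exact m2 _ hB.symm
    intro g hg h3
    by_cases h : frm (g.1 *ᵥ Pi.single 0 1) (Pi.single 0 1) ≠ 0
    · exact s1a g hg h3 h
    push Not at h
    have hB := (sg2_mem_iff g).1 hg (Pi.single 0 1) (Pi.single 3 1)
    rw [h3] at hB
    have hB1 : frm (Pi.single 0 1 : Fin 4 → F) (Pi.single 3 1) = 1 := by
      rw [sg2_frm]
      simp
    rw [hB1] at hB
    refine hred (sg2_T (Pi.single 3 1) 1) (hTm _ _) g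
      (s1a _ ((Sp4 F).mul_mem (sg2_T_mem _ _) hg) ?_ ?_)
    · rw [sg2_mul, h3, sg2_T_apply, sg2_self, mul_zero, zero_smul, add_zero]
    · rw [sg2_mul, sg2_T_apply, hB, one_mul, one_smul, sg2_add_left, h, zero_add, sg2_frm]
      simp
  obtain ⟨h, hh, hhe⟩ := htr (g.1 *ᵥ Pi.single 3 1) (Pi.single 3 1) (hgne g hg _ (hne 3)) (hne 3)
  refine hred h hh g (s1 _ ((Sp4 F).mul_mem (hG hh) hg) ?_)
  rw [sg2_mul]
  exact hhe

end Pool.CND
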