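import Pool.Agent.H37.CTT.Stmts

/-! Board ctt, row SG2 (helper14). -/

set_option autoImplicit false

namespace Pool.CND

open Finset Polynomial Matrix

variable {F : Type} [Field F]

theorem sg2_frm (u v : Fin 4 → F) :
    frm u v = u 0 * v 3 + u 1 * v 2 - u 2 * v 1 - u 3 * v 0 := by
  simp [frm, J4s, dotProduct, mulVec, Fin.sum_univ_four]
  ring

theorem sg2_mem_iff (g : Matrix.SpecialLinearGroup (Fin 4) F) :
    g ∈ Sp4 F ↔ ∀ x y, frm (g.1 *ᵥ x) (g.1 *ᵥ y) = frm x y := by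
  have key : ∀ x y : Fin 4 → F, frm (g.1 *ᵥ x) (g.1 *ᵥ y) = x ⬝ᵥ ((g.1ᵀ * J4s F * g.1) *ᵥ y) := by
    intro x y
    unfold frm
    rw [← Matrix.mulVec_mulVec, ← Matrix.mulVec_mulVec, Matrix.dotProduct_mulVec x g.1ᵀ,
      Matrix.vecMul_transpose]
  constructor
  · intro h x y
    have h' : g.1ᵀ * J4s F * g.1 = J4s F := h
    rw [key, h']
    rfl
  · intro h
    change g.1ᵀ * J4s F * g.1 = J4s F
    ext i j
    have h1 := h (Pi.single i 1) (Pi.single j 1)
    rw [key] at h1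
    unfold frm at h1
    simpa using h1

/-- the transvection `x ↦ x + c B(x, v) v` -/
def sg2_T (v : Fin 4 → F) (c : F) : Matrix.SpecialLinearGroup (Fin 4) F :=
  ⟨1 + Matrix.vecMulVec (c • v) (J4s F *ᵥ v), by
    rw [Matrix.vecMulVec_eq Unit, Matrix.det_one_add_replicateCol_mul_replicateRow,
      dotProduct_smul, dotProduct_comm]
    have h : v ⬝ᵥ (J4s F *ᵥ v) = 0 := by
      have := sg2_frm v v
      unfold frm at this
      rw [this]
      ring
    rw [h, smul_zero, add_zero]⟩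

theorem sg2_T_apply (v : Fin 4 → F) (c : F) (x : Fin 4 → F) :
    (sg2_T v c).1 *ᵥ x = x + (c * frm x v) • v := by
  change (1 + Matrix.vecMulVec (c • v) (J4s F *ᵥ v)) *ᵥ x = _
  rw [Matrix.add_mulVec, Matrix.one_mulVec, Matrix.vecMulVec_mulVec]
  ext i
  simp only [frm, Pi.add_apply, Pi.smul_apply, MulOpposite.smul_eq_mul_unop,
    MulOpposite.unop_op, smul_eq_mul, dotProduct_comm x]
  ring

theorem sg2_T_mem (v : Fin 4 → F) (c : F) : sg2_T v c ∈ Sp4 F := by
  rw [sg2_mem_iff]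
  intro x y
  rw [sg2_T_apply, sg2_T_apply]
  simp only [sg2_frm, Pi.add_apply, Pi.smul_apply, smul_eq_mul]
  ring

theorem sg2_add_left (x y z : Fin 4 → F) : frm (x + y) z = frm x z + frm y z := by
  simp only [sg2_frm, Pi.add_apply]
  ring

theorem sg2_add_right (x y z : Fin 4 → F) : frm x (y + z) = frm x y + frm x z := by
  simp only [sg2_frm, Pi.add_apply]
  ring

theorem sg2_smul_left (a : F) (x y : Fin 4 → F) : frm (a • x) y = a * frm x y := by
  simp only [sg2_frm, Pi.smul_apply, smul_eq_mul]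
  ring

theorem sg2_smul_right (a : F) (x y : Fin 4 → F) : frm x (a • y) = a * frm x y := by
  simp only [sg2_frm, Pi.smul_apply, smul_eq_mul]
  ring

theorem sg2_self (x : Fin 4 → F) : frm x x = 0 := by
  rw [sg2_frm]
  ring

theorem sg2_swap (x y : Fin 4 → F) : frm x y = -frm y x := by
  rw [sg2_frm, sg2_frm]
  ring

/-- all `g ∈ Sp_4` which fix `v` and act trivially on `v^⊥ / v` are in `G₀` -/
def sg2_Q (G₀ : Subgroup (Matrix.SpecialLinearGroup (Fin 4) F)) (v : Fin 4 → F) : Prop :=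
  ∀ g ∈ Sp4 F, g.1 *ᵥ v = v → (∀ x, frm x v = 0 → ∃ a : F, g.1 *ᵥ x = x + a • v) → g ∈ G₀

theorem sg2_Q0 (G₀ : Subgroup (Matrix.SpecialLinearGroup (Fin 4) F))
    (h : ∀ g ∈ Sp4 F, Heis g.1 → g ∈ G₀) : sg2_Q G₀ (Pi.single 0 1) := by
  intro g hg h1 h2
  refine h g hg ⟨?_, ?_, ?_⟩
  · have h3 := congrFun h1 0
    simpa using h3
  · intro i j hi hj
    obtain ⟨a, ha⟩ := h2 (Pi.single j 1) (by
      rw [sg2_frm]
      simp [Ne.symm hj])
    have h3 := congrFun ha i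
    simp only [mulVec_single_one, col_apply, Pi.add_apply, Pi.smul_apply, smul_eq_mul,
      Pi.single_apply, hi, if_false, mul_zero, add_zero] at h3
    exact h3
  · have h3 := (sg2_mem_iff g).1 hg (Pi.single 3 1) (Pi.single 0 1)
    rw [h1, sg2_frm, sg2_frm] at h3
    simpa using h3

theorem sg2_mul (a b : Matrix.SpecialLinearGroup (Fin 4) F) (x : Fin 4 → F) :
    (a * b).1 *ᵥ x = a.1 *ᵥ (b.1 *ᵥ x) := by
  change (a.1 * b.1) *ᵥ x = _
  rw [Matrix.mulVec_mulVec]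

theorem sg2_inv (a : Matrix.SpecialLinearGroup (Fin 4) F) (x : Fin 4 → F) :
    (a⁻¹).1 *ᵥ (a.1 *ᵥ x) = x := by
  rw [← sg2_mul, inv_mul_cancel]
  exact Matrix.one_mulVec x

theorem sg2_Qg (G₀ : Subgroup (Matrix.SpecialLinearGroup (Fin 4) F)) (hG : G₀ ≤ Sp4 F)
    (v : Fin 4 → F) (hv : sg2_Q G₀ v) (h : Matrix.SpecialLinearGroup (Fin 4) F) (hh : h ∈ G₀) :
    sg2_Q G₀ (h.1 *ᵥ v) := by
  intro g hg h1 h2
  have h3 : h⁻¹ * g * h ∈ G₀ := by
    refine hv _ ((Sp4 F).mul_mem ((Sp4 F).mul_mem ((Sp4 F).inv_mem (hG hh)) hg) (hG hh)) ?_ ?_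
    · rw [sg2_mul, sg2_mul, h1, sg2_inv]
    · intro x hx
      obtain ⟨a, ha⟩ := h2 (h.1 *ᵥ x) (by rw [(sg2_mem_iff h).1 (hG hh), hx])
      refine ⟨a, ?_⟩
      rw [sg2_mul, sg2_mul, ha, Matrix.mulVec_add, Matrix.mulVec_smul, sg2_inv, sg2_inv]
  have h4 : g = h * (h⁻¹ * g * h) * h⁻¹ := by group
  rw [h4]
  exact G₀.mul_mem (G₀.mul_mem hh h3) (G₀.inv_mem hh)

theorem sg2_Qs (G₀ : Subgroup (Matrix.SpecialLinearGroup (Fin 4) F))
    (v : Fin 4 → F) (hv : sg2_Q G₀ v) (a : F) (ha : a ≠ 0) : sg2_Q G₀ (a • v) := by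
  intro g hg h1 h2
  refine hv g hg ?_ ?_
  · rw [Matrix.mulVec_smul] at h1
    exact smul_right_injective _ ha h1
  · intro x hx
    obtain ⟨b, hb⟩ := h2 x (by rw [sg2_smul_right, hx, mul_zero])
    exact ⟨b * a, by rw [hb, mul_smul]⟩

/-- the elements of the group of `v` -/
theorem sg2_E (v y : Fin 4 → F) (c : F) (hy : frm y v = 0) :
    ∃ g ∈ Sp4 F, ∀ z, g.1 *ᵥ z = z + frm z v • y + (frm z y + c * frm z v) • v := by
  have hy2 : frm v y = 0 := by rw [sg2_swap, hy, neg_zero]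
  refine ⟨sg2_T (v + y) 1 * sg2_T v (c - 1) * sg2_T y (-1),
    (Sp4 F).mul_mem ((Sp4 F).mul_mem (sg2_T_mem _ _) (sg2_T_mem _ _)) (sg2_T_mem _ _), ?_⟩
  intro z
  rw [sg2_mul, sg2_mul, sg2_T_apply, sg2_T_apply, sg2_T_apply]
  simp only [sg2_add_left, sg2_add_right, sg2_smul_left, sg2_self, hy, hy2]
  ext i
  simp only [Pi.add_apply, Pi.smul_apply, smul_eq_mul]
  ring

theorem sg2_step (G₀ : Subgroup (Matrix.SpecialLinearGroup (Fin 4) F)) (hG : G₀ ≤ Sp4 F)
    (v w x : Fin 4 → F) (hv : sg2_Q G₀ v) (hw : sg2_Q G₀ w) (hwv : frm w v ≠ 0)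
    (hx : frm x v ≠ 0) : sg2_Q G₀ x := by
  -- scale `w`
  obtain ⟨w', hw', hw'v⟩ : ∃ w', sg2_Q G₀ w' ∧ frm w' v = frm x v := by
    refine ⟨(frm x v / frm w v) • w, sg2_Qs G₀ w hw _ (div_ne_zero hx hwv), ?_⟩
    rw [sg2_smul_left, div_mul_cancel₀ _ hwv]
  have hw'0 : frm w' v ≠ 0 := by rw [hw'v]; exact hx
  have hy : frm ((frm w' v)⁻¹ • (x - w')) v = 0 := by
    rw [sg2_smul_left, sub_eq_add_neg, sg2_add_left, ← neg_one_smul F w', sg2_smul_left, hw'v]
    ring
  obtain ⟨g, hg, hgz⟩ := sg2_E v ((frm w' v)⁻¹ • (x - w'))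
    (-(frm w' ((frm w' v)⁻¹ • (x - w')) / frm w' v)) hy
  have hgG : g ∈ G₀ := by
    refine hv g hg ?_ ?_
    · rw [hgz, sg2_self, zero_smul, add_zero, mul_zero, add_zero,
        sg2_swap v, hy, neg_zero, zero_smul, add_zero]
    · intro z hz
      refine ⟨frm z ((frm w' v)⁻¹ • (x - w')), ?_⟩
      rw [hgz, hz, zero_smul, add_zero, mul_zero, add_zero]
  have h1 : g.1 *ᵥ w' = x := by
    rw [hgz, smul_smul, mul_inv_cancel₀ hw'0, one_smul]
    have h2 : frm w' ((frm w' v)⁻¹ • (x - w')) +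
        -(frm w' ((frm w' v)⁻¹ • (x - w')) / frm w' v) * frm w' v = 0 := by
      rw [neg_mul, div_mul_cancel₀ _ hw'0]
      ring
    rw [h2, zero_smul, add_zero]
    abel
  rw [← h1]
  exact sg2_Qg G₀ hG w' hw' g hgG

theorem sg2_thm (h1 : S_SG1) : S_SG2 := by
  intro F _ _ G₀ hG hI hH
  have hQ0 := sg2_Q0 G₀ hH
  have he3 : frm (Pi.single 3 1 : Fin 4 → F) (Pi.single 0 1) ≠ 0 := by
    rw [sg2_frm]
    simp
  -- an image of `e_0` outside `e_0^⊥`
  obtain ⟨w, hw, hwe⟩ : ∃ w, sg2_Q G₀ w ∧ frm w (Pi.single 0 1) ≠ 0 := by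
    by_contra hcon
    push Not at hcon
    let U : Submodule F (Fin 4 → F) :=
      { carrier := {u | ∀ g ∈ G₀, frm (g.1 *ᵥ u) (Pi.single 0 1) = 0}
        add_mem' := by
          intro a b ha hb g hg
          rw [Matrix.mulVec_add, sg2_add_left, ha g hg, hb g hg, add_zero]
        zero_mem' := by
          intro g _
          rw [Matrix.mulVec_zero, sg2_frm]
          simp
        smul_mem' := by
          intro c a ha g hg
          rw [Matrix.mulVec_smul, sg2_smul_left, ha g hg, mul_zero] }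
    have hU : U = ⊤ := by
      refine hI U ?_ ?_
      · intro g hg u hu g' hg'
        have h2 := hu (g' * g) (G₀.mul_mem hg' hg)
        rw [sg2_mul] at h2
        exact h2
      · intro g hg
        exact hcon _ (sg2_Qg G₀ hG _ hQ0 g hg)
    have h2 : (Pi.single 3 1 : Fin 4 → F) ∈ U := by
      rw [hU]
      exact Submodule.mem_top
    have h3 := h2 1 G₀.one_mem
    rw [show (1 : Matrix.SpecialLinearGroup (Fin 4) F).1 = 1 from rfl, Matrix.one_mulVec] at h3
    exact he3 h3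
  have hQ1 : ∀ x, frm x (Pi.single 0 1) ≠ 0 → sg2_Q G₀ x := fun x hx =>
    sg2_step G₀ hG _ w x hQ0 hw hwe hx
  have hQ : ∀ x, x ≠ 0 → sg2_Q G₀ x := by
    intro x hx
    obtain ⟨y, hy1, hy2⟩ : ∃ y, frm y (Pi.single 0 1) ≠ 0 ∧ frm x y ≠ 0 := by
      by_cases h3 : frm x (Pi.single 3 1) ≠ 0
      · exact ⟨_, he3, h3⟩
      push Not at h3
      obtain ⟨y, hy⟩ : ∃ y, frm x y ≠ 0 := by
        by_contra hcon
        push Not at hcon
        apply hx
        have a0 := hcon (Pi.single 3 1)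
        have a1 := hcon (Pi.single 2 1)
        have a2 := hcon (Pi.single 1 1)
        have a3 := hcon (Pi.single 0 1)
        rw [sg2_frm] at a0 a1 a2 a3
        simp at a0 a1 a2 a3
        ext i
        fin_cases i
        · simpa using a0
        · simpa using a1
        · simpa using a2
        · simpa using a3
      by_cases h4 : frm y (Pi.single 0 1) ≠ 0
      · exact ⟨y, h4, hy⟩
      push Not at h4
      refine ⟨Pi.single 3 1 + y, ?_, ?_⟩
      · rw [sg2_add_left, h4, add_zero]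
        exact he3
      · rw [sg2_add_right, h3, zero_add]
        exact hy
    refine sg2_step G₀ hG y (Pi.single 0 1) x (hQ1 y hy1) hQ0 ?_ hy2
    rw [sg2_swap]
    exact neg_ne_zero.2 hy1
  refine h1 F G₀ hG ?_
  intro g v c hg
  by_cases hv : v = 0
  · have h2 : g = 1 := by
      apply Subtype.ext
      change g.1 = 1
      ext i j
      have h3 := congrFun (hg (Pi.single j 1)) i
      rw [hv, smul_zero, add_zero] at h3
      simpa [Matrix.one_apply, Pi.single_apply] using h3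
    rw [h2]
    exact G₀.one_mem
  · refine hQ v hv g ?_ ?_ ?_
    · rw [sg2_mem_iff]
      intro x y
      rw [hg, hg]
      simp only [sg2_frm, Pi.add_apply, Pi.smul_apply, smul_eq_mul]
      ring
    · rw [hg, sg2_self, mul_zero, zero_smul, add_zero]
    · intro x hx
      exact ⟨0, by rw [hg, hx, mul_zero]⟩

end Pool.CND
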